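import Pool.Agent.H66.ATS.Atp

/-!
# Closed labels of the sheared coordinate, for a list of windows

`ats_lst`: one closed coefficient at the window `b`, at most `2 ^ (x J)`, with closed affine labels of
the sheared coordinate at finitely many windows.
-/

set_option autoImplicit false

namespace Pool.AT66

open Finset MeasureTheory
open Pool.Agent.H49.Ent Pool.Agent.H32.Dense Pool.STK Pool.KA Pool.KSAT Pool.K2S Pool.PB Pool.GEN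
open Pool.S6C Pool.GRW Pool.RCD Pool.PKG
open Pool.CHT
open Pool.LA91 (RL Chn)
open Pool.OWN17 (Gdw cht_cls ChA cpl cpl_afI)
open Pool.SHE33 (Lh LhOK)
open Pool.PLA (bas_large)

variable {m : ℕ}

/-- **One closed coefficient for a list of windows.** The number of the parts, and the part, depend
on the list; the labels have degree one, for balls of all radii. -/
theorem ats_lst {S : PCl m} (hS : S.Ne) {C₀ : ℝ} (hC₀ : 0 ≤ C₀) (htm : TmC S C₀)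
    {L : Finset (Fin m) → Fin m → ℝ → ℝ → ℝ} (hL : LamW S L) {y u v : Fin m} (hyu : y ≠ u)
    (hact : Pool.MIC6.ActF S y) {b : ℝ} (hG : Gdw L y u v b) {x : ℝ} (hx : 0 < x) (n : ℕ)
    {w e D : ℕ → ℝ} (he : ∀ i < n, 0 < e i)
    (h : ∀ i < n, AtS S y u v b (L {y, u} v b b) (w i) (D i)) :
    ∃ K₁ : ℝ, 0 < K₁ ∧ Bas S (fun J F A => ∃ (B : F.Ω → Prop) (a : LnT F → Fin 4 → ℝ),
      Sub B A ∧ Pe F.p A ≤ K₁ * Pe F.p B ∧
      (∃ φ : PtT F → Fin 4 → ℝ, ∀ ω, B ω → φ (ptr F J ω) = a (slam F ⌊b * J⌋₊ ω)) ∧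
      (∀ ω, B ω → |a (slam F ⌊b * J⌋₊ ω) 3| ≤ 2 ^ ⌊x * J⌋₊) ∧
      ∀ i < n, ∀ ρ : ℕ, Lh F {y} u v (fun ω => a (slam F ⌊b * J⌋₊ ω) 3) 1 ⌊e i * J⌋₊
        ⌊w i * J⌋₊ ρ ⌊(D i - e i) * J⌋₊ B) := by
  -- a common accuracy
  obtain ⟨e₀, he₀, hx₀, H⟩ : ∃ e₀ : ℝ, 0 < e₀ ∧ e₀ ≤ x ∧ ∀ i < n, Bas S (fun J F A =>
      ∀ κ : F.Ω → ℝ, (RL m {y} u v b (L {y, u} v b b)).P 1 e₀ J F A κ → ∃ B : F.Ω → Prop,
        Sub B A ∧ Pe F.p A ≤ 51200 * Pe F.p B ∧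
        ∀ ρ : ℕ, Lh F {y} u v κ 1 ⌊e i * J⌋₊ ⌊w i * J⌋₊ ρ ⌊(D i - e i) * J⌋₊ B) := by
    have key : ∀ k ≤ n, ∃ e₀ : ℝ, 0 < e₀ ∧ e₀ ≤ x ∧ ∀ i < k, Bas S (fun J F A =>
      ∀ κ : F.Ω → ℝ, (RL m {y} u v b (L {y, u} v b b)).P 1 e₀ J F A κ → ∃ B : F.Ω → Prop,
        Sub B A ∧ Pe F.p A ≤ 51200 * Pe F.p B ∧
        ∀ ρ : ℕ, Lh F {y} u v κ 1 ⌊e i * J⌋₊ ⌊w i * J⌋₊ ρ ⌊(D i - e i) * J⌋₊ B) := by
      intro k
      induction k with
      | zero => exact fun _ => ⟨x, hx, le_rfl, fun i hi => absurd hi (Nat.not_lt_zero i)⟩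
      | succ k ih =>
        intro hk
        obtain ⟨e₀, h1, h2, h3⟩ := ih (by omega)
        obtain ⟨e₁, h4, h5⟩ := h k (by omega) (e k) (he k (by omega))
        refine ⟨min e₀ e₁, lt_min h1 h4, (min_le_left _ _).trans h2, fun i hi => ?_⟩
        rcases Nat.lt_or_ge i k with h6 | h6
        · exact Bas.mono 0 (h3 i h6) fun J _ F A h7 κ hκ =>
            h7 κ ((RL m {y} u v b (L {y, u} v b b)).mono le_rfl (min_le_left _ _) hκ)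
        · have h7 : i = k := by omega
          rw [h7]
          exact Bas.mono 0 (h5 1) fun J _ F A h8 κ hκ =>
            h8 κ ((RL m {y} u v b (L {y, u} v b b)).mono le_rfl (min_le_right _ _) hκ)
    exact key n le_rfl
  have key : ∀ k ≤ n, ∃ K₁ : ℝ, 0 < K₁ ∧ Bas S (fun J F A => ∃ (B : F.Ω → Prop)
      (a : LnT F → Fin 4 → ℝ), Sub B A ∧ Pe F.p A ≤ K₁ * Pe F.p B ∧
      (∃ φ : PtT F → Fin 4 → ℝ, ∀ ω, B ω → φ (ptr F J ω) = a (slam F ⌊b * J⌋₊ ω)) ∧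
      (∀ ω, B ω → |a (slam F ⌊b * J⌋₊ ω) 3| ≤ 2 ^ ⌊x * J⌋₊) ∧
      (RL m {y} u v b (L {y, u} v b b)).P 1 e₀ J F B (fun ω => a (slam F ⌊b * J⌋₊ ω) 3) ∧
      ∀ i < k, ∀ ρ : ℕ, Lh F {y} u v (fun ω => a (slam F ⌊b * J⌋₊ ω) 3) 1 ⌊e i * J⌋₊
        ⌊w i * J⌋₊ ρ ⌊(D i - e i) * J⌋₊ B) := by
    intro k
    induction k with
    | zero =>
      intro _
      refine ⟨25600, by norm_num, Bas.mono 0 (kap_gdw hS hC₀ htm hL hyu hact hG he₀) ?_⟩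
      rintro J - F A ⟨B, a, h1, h2, h3, h4⟩
      obtain ⟨φ, hφ⟩ := h3.cls
      refine ⟨B, a, h1, h2, ⟨φ, fun ω hω => (hφ ω hω).symm⟩, fun ω hω => ?_, h4,
        fun i hi => absurd hi (Nat.not_lt_zero i)⟩
      refine (h3.bnd ω hω 3 (by decide)).trans (pow_le_pow_right₀ (by norm_num) ?_)
      exact Nat.floor_le_floor (mul_le_mul_of_nonneg_right hx₀ (Nat.cast_nonneg J))
    | succ k ih =>
      intro hk
      obtain ⟨K₁, hK₁, h1⟩ := ih (by omega)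
      refine ⟨K₁ * 51200, by positivity, Bas.mono 0 (h1.and (bas_large (H k (by omega))
        (κ := 1 / K₁) (by positivity))) ?_⟩
      rintro J - F A ⟨⟨B, a, h2, h3, ⟨φ, hφ⟩, h4, h5, h6⟩, h7⟩
      obtain ⟨B', k1, k2, k3⟩ := h7 B h2 (by
        rw [one_div, inv_mul_le_iff₀ hK₁]
        exact h3) _ h5
      refine ⟨B', a, fun ω hω => h2 ω (k1 ω hω), ?_, ⟨φ, fun ω hω => hφ ω (k1 ω hω)⟩,
        fun ω hω => h4 ω (k1 ω hω), (RL m {y} u v b (L {y, u} v b b)).sub k1 h5,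
        fun i hi ρ => ?_⟩
      · calc Pe F.p A ≤ K₁ * Pe F.p B := h3
          _ ≤ K₁ * (51200 * Pe F.p B') := mul_le_mul_of_nonneg_left k2 hK₁.le
          _ = _ := by ring
      · rcases Nat.lt_or_ge i k with h8 | h8
        · exact (h6 i h8 ρ).sub k1
        · have h9 : i = k := by omega
          rw [h9]
          exact k3 ρ
  obtain ⟨K₁, hK₁, h1⟩ := key n le_rfl
  refine ⟨K₁, hK₁, Bas.mono 0 h1 ?_⟩
  rintro J - F A ⟨B, a, h2, h3, h4, h5, -, h6⟩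
  exact ⟨B, a, h2, h3, h4, h5, h6⟩

end Pool.AT66
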