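import Pool.Agent.H66.ATS.Ats
import Pool.Agent.H3.D2G.Afq

/-!
# Closed labels of the sheared coordinate at almost every window of a package

`ats_ae`: at almost every good window `g` where the level of the place two increases slower than the
level of the place one, all windows `b` close to `g` have: for the slopes `κ` of the labels of the
place two at `b`, closed labels of `x₂ - κ x₁` over the place zero at `g`, of the level of the place
two, affine, on a part of each event. `kap_gdw`: there are such slopes, at most `2 ^ (e J)`.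
-/

set_option autoImplicit false

namespace Pool.AT66

open Finset MeasureTheory
open Pool.Agent.H49.Ent Pool.Agent.H32.Dense Pool.STK Pool.KA Pool.KSAT Pool.K2S Pool.PB Pool.GEN
open Pool.S6C Pool.GRW Pool.RCD Pool.PKG
open Pool.TOP (TopS)
open Pool.CHT
open Pool.OWN72 (epo cc_epo Ctw Dsc gs_act ctw_ae dns_pt dsc_pos)
open Pool.AVG96 (SlpG slpG_of gap_ae)
open Pool.LA91 (RL Chn)
open Pool.OWN17 (Gdw cht_cls ChA cpl cpl_afI)

/-- **The slopes of the charts** at a good window, at most `2 ^ (e J)`, on a part of each event. -/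
theorem kap_gdw {m : ℕ} {S : PCl m} (hS : S.Ne) {C₀ : ℝ} (hC₀ : 0 ≤ C₀) (htm : TmC S C₀)
    {L : Finset (Fin m) → Fin m → ℝ → ℝ → ℝ} (hL : LamW S L) {y u v : Fin m} (hyu : y ≠ u)
    (hact : Pool.MIC6.ActF S y) {t : ℝ} (hG : Gdw L y u v t) {e : ℝ} (he : 0 < e) :
    Bas S (fun J F A => ∃ (B : F.Ω → Prop) (a : LnT F → Fin 4 → ℝ), Sub B A ∧
      Pe F.p A ≤ 25600 * Pe F.p B ∧
      ChA F y u v ⌊t * J⌋₊ ⌊(L {y, u} v t t - e) * J⌋₊ ⌊e * J⌋₊ a B ∧
      (RL m {y} u v t (L {y, u} v t t)).P 1 e J F B (fun ω => a (slam F ⌊t * J⌋₊ ω) 3)) := by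
  refine Bas.mono 0 (cht_cls hS hC₀ htm hL hyu hact hG he) ?_
  rintro J - F A ⟨a, b, B, hB, hP, -, -, hb⟩
  obtain ⟨z, hz⟩ := hb.lb
  refine ⟨B, b, hB, hP, hb, _, z, b, cpl y u, fun x => x 3, ?_, fun x => cpl_afI hyu x,
    fun _ _ => rfl⟩
  have e1 : insert u {y} = ({y, u} : Finset (Fin m)) := Finset.pair_comm u y
  rw [e1]
  exact hz

variable {n : ℕ} {hn : 2 ≤ n} {S : PCl n} {P : ℝ → ℝ → ℝ} {rr : ℝ → ℝ}
  {P' : ℕ → List (Fin n) × Fin n → ℝ → ℝ → ℝ} {Λ : Finset (Fin n) → Fin n → ℝ → ℝ → ℝ}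
  {PB : ℕ → List (Fin n) × Fin n → ℝ → ℝ → ℝ}

/-- **Closed labels of the sheared coordinate** at almost every window. -/
theorem ats_ae (H : PkT hn S P rr P' Λ PB) (hTop : TopS n) (hF : FZX (n - 1)) (h2 : 2 < n - 1)
    (o : Od n) : ∀ᵐ g : ℝ, g ∈ Gs P rr P' Λ o → 1 < deriv (fun a => LvL hn P P' o 1 a a) g →
      deriv (fun a => LvL hn P P' o 2 a a) g < deriv (fun a => LvL hn P P' o 1 a a) g →
      ∃ δ : ℝ, 0 < δ ∧ ∀ b : ℝ, g - δ < b → b < g →
        (ContinuousAt (fun W => Λ {cc hn o.1.1 0} (cc hn o.1.1 1) W W) b →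
          ContinuousAt (fun W => Λ {cc hn o.1.1 0, cc hn o.1.1 1} (cc hn o.1.1 2) W W) b →
          Gdw Λ (cc hn o.1.1 0) (cc hn o.1.1 1) (cc hn o.1.1 2) b) ∧
        AtS S (cc hn o.1.1 0) (cc hn o.1.1 1) (cc hn o.1.1 2) b
          (Λ {cc hn o.1.1 0, cc hn o.1.1 1} (cc hn o.1.1 2) b b) g (LvL hn P P' o 2 g g) := by
  have h01 : cc hn o.1.1 0 ≠ cc hn o.1.1 1 := fun h => by
    have := cc_inj' hn o.1.1 (i := 0) (j := 1) (by omega) (by omega) h
    omega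
  have hct : ∀ᵐ g : ℝ, g ∈ Ctw Λ := by
    have h1 := (ctw_ae (Λ := Λ) H.toPk.lam).ae_notMem volume
    filter_upwards [h1] with g hg
    by_contra hcon
    exact hg hcon
  have hcnt : ∀ᵐ g : ℝ, ContinuousAt (fun W => Λ {cc hn o.1.1 0} (cc hn o.1.1 1) W W) g ∧
      ContinuousAt (fun W => Λ {cc hn o.1.1 0, cc hn o.1.1 1} (cc hn o.1.1 2) W W) g := by
    have h1 := ((Pool.OWN17.cnt_L H.toPk.lam {cc hn o.1.1 0} (cc hn o.1.1 1)).2.union
      (Pool.OWN17.cnt_L H.toPk.lam {cc hn o.1.1 0, cc hn o.1.1 1} (cc hn o.1.1 2)).2).ae_notMem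
      volume
    filter_upwards [h1] with g hg
    simp only [Set.mem_union, Set.mem_setOf_eq, not_or, not_not] at hg
    exact hg
  filter_upwards [hct, dns_pt (Gs P rr P' Λ o ∩ Ctw Λ), H.dia_all H.pble hTop hF,
    sl_one H hTop hF, hcnt] with g kct kdn kdia ksl kcn hgG hs1 hs12
  have hds : Dsc (Gs P rr P' Λ o ∩ Ctw Λ) g := kdn ⟨hgG, kct⟩
  have hder : ∀ l, l ≤ n - 1 → HasDerivAt (fun a => LvL hn P P' o l a a)
      (deriv (fun a => LvL hn P P' o l a a) g) g := fun l hl =>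
    (kdia o hgG l hl).1.hasDerivAt
  have hnn : ∀ l, 1 ≤ l → l ≤ 2 → 0 ≤ deriv (fun a => LvL hn P P' o l a a) g := fun l _ hl => by
    have h5 : 1 ≤ deriv (fun a => LvL hn P P' o l a a) g := ksl o hgG l (by omega)
    linarith
  have hgt : ∀ l, 1 ≤ l → l < 2 → 1 < deriv (fun a => LvL hn P P' o l a a) g := fun l h3 h4 => by
    obtain rfl : l = 1 := by omega
    exact hs1
  have hSG : SlpG (fun w l => LvL hn P P' o l w w) 1 2 (Gs P rr P' Λ o ∩ Ctw Λ) g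
      (fun l => deriv (fun a => LvL hn P P' o l a a) g) :=
    slpG_of hnn hgt (fun l _ h4 => (hder l (by omega)).hasDerivWithinAt) (gap_dsc hds)
  have hle : ∀ a ∈ Gs P rr P' Λ o, a ≤ LvL hn P P' o 1 a a := fun a ha => by
    rw [gs_lvl H.toPk hTop hF ha (by omega)]
    exact le_vs H.toPk.lam (epo hn o) ha.1.1.2.1.le _
  have hlo : g < LvL hn P P' o 1 g g := by
    have h5 := dsc_pos hds (f := fun a => LvL hn P P' o 1 a a - a)
      (s := deriv (fun a => LvL hn P P' o 1 a a) g - 1)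
      ((hder 1 (by omega)).sub (hasDerivAt_id g)) (by linarith)
      (fun a ha => by
        have := hle a ha.1
        show 0 ≤ LvL hn P P' o 1 a a - a
        linarith) (by
        have := hle g hgG
        show 0 ≤ LvL hn P P' o 1 g g - g
        linarith)
    have h6 : 0 < LvL hn P P' o 1 g g - g := h5
    linarith
  have hlo2 : LvL hn P P' o 1 g g ≤ LvL hn P P' o 2 g g := by
    rw [gs_lvl H.toPk hTop hF hgG (by omega), gs_lvl H.toPk hTop hF hgG h2]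
    have h1 : Vgr Λ (epo hn o) g := hgG.1.1.2.2.1
    exact h1.mono H.toPk.lam hgG.1.1.2.1.le (by omega)
  obtain ⟨ρ₀, hρ₀, h6⟩ := near_two H.toPk hTop hF h2 subset_rfl hds hs1 (hder 1 (by omega)) hlo
  have hsn1 : ∀ w ∈ Gs P rr P' Λ o ∩ Ctw Λ, g - ρ₀ ≤ w → w ≤ g + ρ₀ →
      LvL hn P P' o 1 w w = Λ {cc hn o.1.1 0} (cc hn o.1.1 1) w w := fun w hw _ _ =>
    lev_one H.toPk hTop hF hw.1 (by omega)
  have hU1 := lev_lt H.toPk hTop hF hgG (l := 1) (by omega)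
  obtain ⟨ρ₁, hρ₁, -, h7⟩ := Pool.CDX.gdw_near (r₀ := 1) (r := 2) (i := 1)
    (y := cc hn o.1.1 0) (u := cc hn o.1.1 1) (v := cc hn o.1.1 2) H.toPk.lam hSG ⟨hgG, kct⟩
    le_rfl le_rfl hρ₀ hsn1 (fun w hw w1 w2 => h6 w hw w1 w2) hgG.1.1.1 hlo (hlo.trans_le hlo2) hU1
  obtain ⟨δ, hδ, h8⟩ := slo_to H.toPk.ne (by norm_num) H.toPk.tmc H.toPk.lam h01
    (gs_act H.toPk o) hSG ⟨hgG, kct⟩ hs12 hρ₀ hsn1 (fun w hw w1 w2 => h6 w hw w1 w2)
    hgG.1.1.1 hlo (hlo.trans_le hlo2) hU1 (fun w hw _ _ => by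
      obtain ⟨u₁, rd, -, h9⟩ := gs_chn1 H.toPk hTop hF hw.1 (i := 2) (by omega) (by omega)
      exact ⟨w, u₁, rd, h9⟩)
  have eg1 : LvL hn P P' o 1 g g = Λ {cc hn o.1.1 0} (cc hn o.1.1 1) g g :=
    hsn1 g ⟨hgG, kct⟩ (by linarith) (by linarith)
  have eg2 : LvL hn P P' o 2 g g = Λ {cc hn o.1.1 0, cc hn o.1.1 1} (cc hn o.1.1 2) g g :=
    h6 g ⟨hgG, kct⟩ (by linarith) (by linarith)
  refine ⟨min δ ρ₁, lt_min hδ hρ₁, fun b b1 b2 => ⟨fun c1 c2 => h7 b ?_ (by linarith) c1 c2, ?_⟩⟩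
  · have := min_le_right δ ρ₁
    linarith
  · have h9 := h8 b (by
      have := min_le_left δ ρ₁
      linarith) b2
    have hGg := h7 g (by linarith) (by linarith) kcn.1 kcn.2
    rw [eg2] at hlo2 ⊢
    rw [eg1] at hlo2
    refine ats_slo H.toPk.ne (by norm_num) H.toPk.tmc H.toPk.lam h01 (gs_act H.toPk o) hGg
      hgG.1.1.2.1 b2.le hlo2 ?_
    have e1 : LvL hn P P' o 2 g g - LvL hn P P' o 1 g g =
        Λ {cc hn o.1.1 0, cc hn o.1.1 1} (cc hn o.1.1 2) g g -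
          Λ {cc hn o.1.1 0} (cc hn o.1.1 1) g g := by rw [eg1, eg2]
    rw [← e1]
    exact h9

end Pool.AT66
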