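import Pool.Agent.H66.ATS.Slp
import Pool.Agent.H33.SHE.Dat
import Pool.Agent.H17.COR.Chq

/-!
# Closed labels of the sheared coordinate

`lh_mk`: a closed label of `v - κ u` over `y` from the closed affine charts of `u` over `y` and of `v`
over `y`, `u`, if the slope of the second chart is near `κ`. `AtS`: for the slopes `κ` of the labels at
an earlier window `b` there are, on a part of each event, closed labels of `v - κ u` over `y` of the
precision of the labels of `v` over `y`, `u`. `ats_slo`: it follows from the natural slopes.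
`ats_to`: it holds if the level of the place two increases slower than the level of the place one.
-/

set_option autoImplicit false

namespace Pool.AT66

open Finset Real MvPolynomial
open Pool.Agent.H49.Ent Pool.Agent.H32.Dense Pool.STK Pool.KA Pool.KSAT Pool.K2S Pool.PB Pool.GEN
open Pool.S6C Pool.RCD Pool.LA91 Pool.OWN68 Pool.CHT Pool.AVG96
open Pool.GRD (LbP)
open Pool.MIC6 (ActF her_sub afq eval_afq deg_afq)
open Pool.OWN17 (Gdw cht_cls ChA cpl cpl_afI oh ov crs crs_slam)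
open Pool.PLA (bas_large)
open Pool.BFL (Pb)
open Pool.SHE33 (Lh LhOK)

variable {m J : ℕ}

/-- **A closed label of the sheared coordinate** from the charts. -/
theorem lh_mk {F : Fam m J} {y u v : Fin m} {wb w Mu Mv E P e : ℕ} {a b : LnT F → Fin 4 → ℝ}
    {V : Type} {z₀ : PtT F → V} {z₀' : LnT F → V} {cb : V → ℝ} {B : F.Ω → Prop} {κ : F.Ω → ℝ}
    {δ : ℝ} (hbw : wb ≤ w) (hwJ : w ≤ J)
    (hcl : ∀ ω, B ω → z₀ (ptr F J ω) = z₀' (slam F wb ω))
    (hκ : ∀ ω, B ω → κ ω = cb (z₀' (slam F wb ω))) (ha : ChA F y y u w Mu E a B)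
    (ha3 : ∀ s, a s 3 = 0) (hb : ChA F y u v w Mv E b B)
    (hδ : ∀ ω, B ω → |b (slam F w ω) 3 - κ ω| ≤ δ) (hδ0 : 0 ≤ δ)
    (hP : 1 / 2 ^ Mv + δ * (1 / 2 ^ Mu) ≤ (1 : ℝ) / 2 ^ P)
    (he : (2 : ℝ) ^ E + δ * 2 ^ E ≤ 2 ^ e) (ρ : ℕ) : Lh F {y} u v κ 1 e w ρ P B := by
  obtain ⟨φ, hφ⟩ := ha.cls
  obtain ⟨ψ, hψ⟩ := hb.cls
  obtain ⟨G, hG⟩ : ∃ G : V × (Fin 4 → ℝ) × (Fin 4 → ℝ) → MvPolynomial (Option (Fin m)) ℝ,
    G = fun x => afq y y (x.2.2 0 + (x.2.2 3 - cb x.1) * x.2.1 0)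
      (x.2.2 1 + (x.2.2 3 - cb x.1) * x.2.1 1) (x.2.2 2 + (x.2.2 3 - cb x.1) * x.2.1 2) 0 :=
    ⟨_, rfl⟩
  have hev : ∀ x b', eval b' (G x) = x.2.2 0 + (x.2.2 3 - cb x.1) * x.2.1 0 +
      ((x.2.2 1 + (x.2.2 3 - cb x.1) * x.2.1 1) * b' none +
        (x.2.2 2 + (x.2.2 3 - cb x.1) * x.2.1 2) * b' (some y)) := fun x b' => by
    rw [hG]
    beta_reduce
    rw [eval_afq]
    ring
  refine ⟨V × (Fin 4 → ℝ) × (Fin 4 → ℝ), fun p => (z₀ p, φ p, ψ p),
    fun s => (z₀' (crs wb w s), a s, b s), G, ?_⟩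
  refine ⟨fun x => by rw [hG]; exact deg_afq _ _ _ _ _ _, fun x b' b'' h0 h1 => ?_,
    fun ω hω => ?_, fun ω hω => ?_, fun ω hω b' hb' o => ?_⟩
  · rw [hev, hev, h0, h1 y (Finset.mem_singleton_self y)]
  · show (z₀ (ptr F J ω), φ (ptr F J ω), ψ (ptr F J ω)) = _
    rw [crs_slam F hbw hwJ, hcl ω hω, ← hφ ω hω, ← hψ ω hω]
  · rw [hev, crs_slam F hbw hwJ]
    beta_reduce
    rw [← hκ ω hω]
    have h1 := ha.pos ω hω
    have h2 := hb.pos ω hω
    have h3 := hδ ω hω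
    unfold oh at h1 h2
    rw [ha3] at h1
    have e1 : F.x ω v - κ ω * F.x ω u - (b (slam F w ω) 0 +
        (b (slam F w ω) 3 - κ ω) * a (slam F w ω) 0 + ((b (slam F w ω) 1 +
          (b (slam F w ω) 3 - κ ω) * a (slam F w ω) 1) * bt F ω none +
        (b (slam F w ω) 2 + (b (slam F w ω) 3 - κ ω) * a (slam F w ω) 2) * bt F ω (some y))) =
        (F.x ω v - (b (slam F w ω) 0 + b (slam F w ω) 1 * F.t ω + b (slam F w ω) 2 * F.x ω y +
          b (slam F w ω) 3 * F.x ω u)) + (b (slam F w ω) 3 - κ ω) *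
        (F.x ω u - (a (slam F w ω) 0 + a (slam F w ω) 1 * F.t ω + a (slam F w ω) 2 * F.x ω y +
          0 * F.x ω y)) := by
      show F.x ω v - κ ω * F.x ω u - (b (slam F w ω) 0 +
        (b (slam F w ω) 3 - κ ω) * a (slam F w ω) 0 + ((b (slam F w ω) 1 +
          (b (slam F w ω) 3 - κ ω) * a (slam F w ω) 1) * F.t ω +
        (b (slam F w ω) 2 + (b (slam F w ω) 3 - κ ω) * a (slam F w ω) 2) * F.x ω y)) = _
      ring
    rw [e1]
    refine (abs_add_le _ _).trans ((add_le_add h2 ?_).trans hP)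
    rw [abs_mul]
    exact mul_le_mul h3 h1 (abs_nonneg _) hδ0
  · have h3 := hδ ω hω
    have key : ∀ i : Fin 4, i ≠ 0 → |b (slam F w ω) i +
        (b (slam F w ω) 3 - κ ω) * a (slam F w ω) i| ≤ 2 ^ e := fun i hi => by
      refine (abs_add_le _ _).trans ((add_le_add (hb.bnd ω hω i hi) ?_).trans he)
      rw [abs_mul]
      exact mul_le_mul h3 (ha.bnd ω hω i hi) (abs_nonneg _) hδ0
    have hpd : pderiv o (G (z₀' (crs wb w (slam F w ω)), a (slam F w ω), b (slam F w ω))) =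
        C ((b (slam F w ω) 1 + (b (slam F w ω) 3 - κ ω) * a (slam F w ω) 1) *
          (if o = none then 1 else 0) +
        (b (slam F w ω) 2 + (b (slam F w ω) 3 - κ ω) * a (slam F w ω) 2) *
          (if o = some y then 1 else 0)) := by
      rw [hG, crs_slam F hbw hwJ]
      beta_reduce
      rw [← hκ ω hω]
      unfold afq
      simp only [map_add, Derivation.leibniz, pderiv_C, pderiv_X, smul_eq_mul, mul_zero, add_zero,
        zero_add, Pi.single_apply, map_mul, C_0, zero_mul]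
      by_cases h1 : o = none
      · subst h1
        simp
      · by_cases h2 : o = some y
        · subst h2
          simp
        · rw [if_neg h1, if_neg h2]
          simp [h1, h2, Ne.symm h1, Ne.symm h2, eq_comm]
    rw [hpd, eval_C]
    have e0 : (0 : ℝ) ≤ 2 ^ e := by positivity
    by_cases h1 : o = none
    · rw [if_pos h1, if_neg (by rw [h1]; simp), mul_one, mul_zero, add_zero]
      exact key 1 (by decide)
    · rw [if_neg h1, mul_zero, zero_add]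
      by_cases h2 : o = some y
      · rw [if_pos h2, mul_one]
        exact key 2 (by decide)
      · rw [if_neg h2, mul_zero, abs_zero]
        exact e0

/-- **Closed labels of the sheared coordinate** `v - κ u` over `y` at the window `w`, of the precision
`D`, on a part of each event, for the slopes `κ` of the labels of `v` over `y`, `u` at the window `b`,
of the precision `p`; they are affine, so that their balls are arbitrary. -/
def AtS {m : ℕ} (S : PCl m) (y u v : Fin m) (b p w D : ℝ) : Prop :=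
  ∀ e : ℝ, 0 < e → ∃ e₁ : ℝ, 0 < e₁ ∧ ∀ K : ℕ, Bas S (fun J F A => ∀ κ : F.Ω → ℝ,
    (RL m {y} u v b p).P K e₁ J F A κ → ∃ B : F.Ω → Prop, Sub B A ∧
      Pe F.p A ≤ 51200 * Pe F.p B ∧
      ∀ ρ : ℕ, Lh F {y} u v κ 1 ⌊e * J⌋₊ ⌊w * J⌋₊ ρ ⌊(D - e) * J⌋₊ B)

theorem AtS.sub {S S' : PCl m} (hs : ∀ (τ : ℝ) (J : ℕ) (F : Fam m J) (A : F.Ω → Prop),
    S'.St τ J F A → S.St τ J F A) {y u v : Fin m} {b p w D : ℝ} (h : AtS S y u v b p w D) :
    AtS S' y u v b p w D := by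
  intro e he
  obtain ⟨e₁, he₁, H⟩ := h e he
  exact ⟨e₁, he₁, fun K => (H K).sub hs⟩

/-- **From the natural slopes.** -/
theorem ats_slo {S : PCl m} (hS : S.Ne) {C₀ : ℝ} (hC₀ : 0 ≤ C₀) (htm : TmC S C₀)
    {L : Finset (Fin m) → Fin m → ℝ → ℝ → ℝ} (hL : LamW S L) {y u v : Fin m} (hyu : y ≠ u)
    (hact : ActF S y) {g b p : ℝ} (hG : Gdw L y u v g) (hg1 : g < 1) (hbg : b ≤ g)
    (hUD : L {y} u g g ≤ L {y, u} v g g)
    (h : SloN S (RL m {y} u v b p) (RL m {y} u v g (L {y, u} v g g))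
      (L {y, u} v g g - L {y} u g g)) : AtS S y u v b p g (L {y, u} v g g) := by
  intro e he
  obtain ⟨U, hU⟩ : ∃ U, U = L {y} u g g := ⟨_, rfl⟩
  obtain ⟨D, hD⟩ : ∃ D, D = L {y, u} v g g := ⟨_, rfl⟩
  rw [← hU, ← hD] at hUD h
  rw [← hD]
  have hg0 := hG.t0
  have hgU := hG.tU
  have hgD := hG.tD
  rw [← hU] at hgU
  rw [← hD] at hgD
  obtain ⟨x, hx⟩ : ∃ x, x = min (e / 8) ((U - g) / 2) := ⟨_, rfl⟩
  have hx0 : 0 < x := by rw [hx]; exact lt_min (by linarith) (by linarith)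
  have hxe : x ≤ e / 8 := by rw [hx]; exact min_le_left _ _
  have hxU : x ≤ (U - g) / 2 := by rw [hx]; exact min_le_right _ _
  obtain ⟨e₁, he₁, H⟩ := h x hx0
  obtain ⟨x', hx'⟩ : ∃ x', x' = min x e₁ := ⟨_, rfl⟩
  have hx'0 : 0 < x' := by rw [hx']; exact lt_min hx0 he₁
  have hx'x : x' ≤ x := by rw [hx']; exact min_le_left _ _
  have hx'e : x' ≤ e₁ := by rw [hx']; exact min_le_right _ _
  refine ⟨e₁, he₁, fun K => ?_⟩
  have b1 := cht_cls hS hC₀ htm hL hyu hact hG hx'0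
  rw [← hU, ← hD] at b1
  have b2 := bas_large (H (max K 1) (1 / 2) (by norm_num)) (κ := 1 / 25600) (by norm_num)
  obtain ⟨J₀, hJ₀⟩ := exists_nat_ge (max (4 / (e / 4)) (4 / g))
  refine Bas.mono J₀ ((b1.and b2).and (Pool.GRW.tmc_bas htm one_pos)) ?_
  rintro J hJ F A ⟨⟨⟨a, b', B, hBA, hPB, ha, ha3, hb⟩, k2⟩, hA, -⟩ κ hκ
  have hJ0 : (0 : ℝ) ≤ J := Nat.cast_nonneg J
  have hJe : 4 ≤ e / 4 * J := by
    have h1 : (J₀ : ℝ) ≤ J := by exact_mod_cast hJ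
    have h2 : 4 / (e / 4) ≤ J := ((le_max_left _ _).trans hJ₀).trans h1
    rw [div_le_iff₀ (by positivity)] at h2
    linarith
  have hJg : 4 ≤ g * J := by
    have h1 : (J₀ : ℝ) ≤ J := by exact_mod_cast hJ
    have h2 : 4 / g ≤ J := ((le_max_right _ _).trans hJ₀).trans h1
    rw [div_le_iff₀ hg0] at h2
    linarith
  have hB0 : 0 < Pe F.p B := by linarith
  have hκB := (RL m {y} u v b p).sub hBA hκ
  obtain ⟨z, hz⟩ := hb.lb
  have e1 : insert u {y} = ({y, u} : Finset (Fin m)) := Finset.pair_comm u y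
  have hrb : (RL m {y} u v g D).P 1 x' J F B (fun ω => b' (slam F ⌊g * J⌋₊ ω) 3) :=
    ⟨_, z, b', cpl y u, fun x => x 3, by rw [e1]; exact hz, fun x => cpl_afI hyu x,
      fun _ _ => rfl⟩
  have k3 := k2 B hBA (by linarith) κ (fun ω => b' (slam F ⌊g * J⌋₊ ω) 3)
    ((RL m {y} u v b p).mono (le_max_left _ _) le_rfl hκB)
    ((RL m {y} u v g D).mono (le_max_right _ _) hx'e hrb)
  obtain ⟨B', hB'⟩ : ∃ B' : F.Ω → Prop, B' = fun ω => B ω ∧
    |κ ω - b' (slam F ⌊g * J⌋₊ ω) 3| ≤ 2 ^ (-((D - U - x) * J)) := ⟨_, rfl⟩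
  have hB'B : Sub B' B := fun ω hω => by
    rw [hB'] at hω
    exact hω.1
  have hPB' : Pe F.p B ≤ 2 * Pe F.p B' := by
    rw [hB']
    exact Pool.OWN17.half_of F.isLaw hB0 k3
  obtain ⟨V, z₀, z₀', G₀, cb, hl, -, hc⟩ := hκB
  refine ⟨B', fun ω hω => hBA ω (hB'B ω hω), by linarith, fun ρ => ?_⟩
  have f1 : (⌊x' * (J : ℝ)⌋₊ : ℝ) ≤ x' * J := Nat.floor_le (by positivity)
  have f2 : x' * (J : ℝ) ≤ x * J := mul_le_mul_of_nonneg_right hx'x hJ0
  have f3 : x * (J : ℝ) ≤ e / 8 * J := mul_le_mul_of_nonneg_right hxe hJ0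
  have f4 : (U - x') * (J : ℝ) - 1 < ⌊(U - x') * (J : ℝ)⌋₊ := Nat.sub_one_lt_floor _
  have f5 : (D - x') * (J : ℝ) - 1 < ⌊(D - x') * (J : ℝ)⌋₊ := Nat.sub_one_lt_floor _
  have f6 : e * (J : ℝ) - 1 < ⌊e * (J : ℝ)⌋₊ := Nat.sub_one_lt_floor _
  have hUD0 : 0 ≤ (D - U) * (J : ℝ) := mul_nonneg (by linarith) hJ0
  refine lh_mk (wb := ⌊b * J⌋₊) (a := a) (b := b') (E := ⌊x' * J⌋₊) (Mu := ⌊(U - x') * J⌋₊)
    (Mv := ⌊(D - x') * J⌋₊) (δ := 2 ^ (-((D - U - x) * J))) (z₀ := z₀) (z₀' := z₀') (cb := cb)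
    (Nat.floor_le_floor (mul_le_mul_of_nonneg_right hbg hJ0)) (floor_le hg1.le J)
    (fun ω hω => hl.cls ω (hB'B ω hω)) (fun ω hω => hc ω (hB'B ω hω)) (ha.sub hB'B) ha3
    (hb.sub hB'B) (fun ω hω => ?_) (by positivity) ?_ ?_ ρ
  · rw [hB'] at hω
    rw [abs_sub_comm]
    exact hω.2
  · -- the precision
    have q1 : ((⌊(D - e) * (J : ℝ)⌋₊ : ℝ) + 1) ≤ (D - 2 * x) * J - 1 := by
      rcases Nat.eq_zero_or_pos ⌊(D - e) * (J : ℝ)⌋₊ with h0 | h0
      · rw [h0]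
        have g1 : g * (J : ℝ) ≤ (D - 2 * x) * J := mul_le_mul_of_nonneg_right (by linarith) hJ0
        push_cast
        linarith
      · have f7 : (⌊(D - e) * (J : ℝ)⌋₊ : ℝ) ≤ (D - e) * J := by
          refine Nat.floor_le ?_
          by_contra hcon
          rw [Nat.floor_of_nonpos (by linarith)] at h0
          exact lt_irrefl _ h0
        have g1 : (D - e + 3 / 4 * e) * (J : ℝ) ≤ (D - 2 * x) * J :=
          mul_le_mul_of_nonneg_right (by linarith) hJ0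
        linarith
    have q2 : ⌊(D - e) * (J : ℝ)⌋₊ + 1 ≤ ⌊(D - x') * (J : ℝ)⌋₊ := by
      have g1 : (D - 2 * x) * (J : ℝ) ≤ (D - x') * J :=
        mul_le_mul_of_nonneg_right (by linarith) hJ0
      have g2 : ((⌊(D - e) * (J : ℝ)⌋₊ + 1 : ℕ) : ℝ) ≤ ⌊(D - x') * (J : ℝ)⌋₊ := by
        push_cast
        linarith
      exact_mod_cast g2
    have q3 : (1 : ℝ) / 2 ^ ⌊(D - x') * (J : ℝ)⌋₊ ≤ 1 / 2 ^ (⌊(D - e) * (J : ℝ)⌋₊ + 1) :=
      one_div_le_one_div_of_le (by positivity) (pow_le_pow_right₀ (by norm_num) q2)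
    have q4 : (2 : ℝ) ^ (-((D - U - x) * J)) * (1 / 2 ^ ⌊(U - x') * (J : ℝ)⌋₊) ≤
        1 / 2 ^ (⌊(D - e) * (J : ℝ)⌋₊ + 1) := by
      rw [one_div, one_div, ← Real.rpow_natCast, ← Real.rpow_natCast,
        ← Real.rpow_neg (by norm_num : (0 : ℝ) ≤ 2), ← Real.rpow_neg (by norm_num : (0 : ℝ) ≤ 2),
        ← Real.rpow_add (by norm_num : (0 : ℝ) < 2)]
      refine Real.rpow_le_rpow_of_exponent_le (by norm_num) ?_
      push_cast
      have g1 : (D - U - x) * (J : ℝ) + (U - x') * J = (D - x - x') * J := by ring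
      have g2 : (D - 2 * x) * (J : ℝ) ≤ (D - x - x') * J :=
        mul_le_mul_of_nonneg_right (by linarith) hJ0
      linarith
    refine (add_le_add q3 q4).trans (le_of_eq ?_)
    rw [pow_succ]
    field_simp
    norm_num
  · -- the gradients
    have q1 : ⌊x' * (J : ℝ)⌋₊ + 1 ≤ ⌊e * (J : ℝ)⌋₊ := by
      have g2 : ((⌊x' * (J : ℝ)⌋₊ + 1 : ℕ) : ℝ) ≤ ⌊e * (J : ℝ)⌋₊ := by
        push_cast
        linarith
      exact_mod_cast g2
    have q2 : (2 : ℝ) ^ ⌊x' * (J : ℝ)⌋₊ ≤ 1 / 2 * 2 ^ ⌊e * (J : ℝ)⌋₊ := by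
      have g1 : (2 : ℝ) ^ (⌊x' * (J : ℝ)⌋₊ + 1) ≤ 2 ^ ⌊e * (J : ℝ)⌋₊ :=
        pow_le_pow_right₀ (by norm_num) q1
      rw [pow_succ] at g1
      linarith
    have q3 : (2 : ℝ) ^ (-((D - U - x) * J)) * 2 ^ ⌊x' * (J : ℝ)⌋₊ ≤
        1 / 2 * 2 ^ ⌊e * (J : ℝ)⌋₊ := by
      have g0 : (1 / 2 : ℝ) = 2 ^ (-1 : ℝ) := by
        rw [Real.rpow_neg (by norm_num), Real.rpow_one]
        norm_num
      rw [g0, ← Real.rpow_natCast, ← Real.rpow_natCast, ← Real.rpow_add (by norm_num),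
        ← Real.rpow_add (by norm_num)]
      refine Real.rpow_le_rpow_of_exponent_le (by norm_num) ?_
      have g1 : (D - U - x) * (J : ℝ) = (D - U) * J - x * J := by ring
      linarith
    linarith

end Pool.AT66
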