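import Pool.Agent.H71.CDX.Cdm
import Pool.Agent.H24.PLN.Aff1

/-!
# The slopes of the labels at an earlier window

`SRel.ExP`: a relation is attained on a part of each event. `slo_transP`: three slopes, the middle
one on a part. `exp_gdw`: the slopes of the charts at a good window. `slo_to`: if the level of the
place two increases slower than the level of the place one, then the slope of its labels at an earlier
window is natural at the window.
-/

set_option autoImplicit false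

namespace Pool.AT66

open Finset Real MvPolynomial
open Pool.Agent.H49.Ent Pool.Agent.H32.Dense Pool.STK Pool.KA Pool.KSAT Pool.K2S Pool.PB Pool.GEN
open Pool.S6C Pool.RCD Pool.LA91 Pool.OWN68 Pool.CHT Pool.AVG96
open Pool.GRD (LbP)
open Pool.MIC6 (ActF her_sub)
open Pool.OWN17 (Gdw cht_cls ChA cpl cpl_afI)
open Pool.PLA (bas_large)
open Pool.BFL (Pb)
open Pool.CDX (gdw_near)

variable {m : ℕ}

/-- **The relation is attained on a part** of each event. -/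
def ExP (S : PCl m) (R : SRel m) : Prop :=
  ∀ e : ℝ, 0 < e → ∃ (K : ℕ) (K₁ : ℝ), 0 < K₁ ∧ Bas S (fun J F A => ∃ (B : F.Ω → Prop)
    (c : F.Ω → ℝ), Sub B A ∧ Pe F.p A ≤ K₁ * Pe F.p B ∧ R.P K e J F B c)

/-- **Three slopes**, the middle one on a part of each event. -/
theorem slo_transP {S : PCl m} {C₀ : ℝ} (htm : TmC S C₀) {R₁ R₂ R₃ : SRel m} {Δ : ℝ}
    (h₁ : SloN S R₁ R₂ Δ) (h₂ : SloN S R₂ R₃ Δ) (x : ExP S R₂) : SloN S R₁ R₃ Δ := by
  intro ε hε
  obtain ⟨e₁, he₁, H₁⟩ := h₁ (ε / 2) (half_pos hε)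
  obtain ⟨e₂, he₂, H₂⟩ := h₂ (ε / 2) (half_pos hε)
  obtain ⟨K₀, K₁, hK₁, hK₀⟩ := x (min e₁ e₂) (lt_min he₁ he₂)
  refine ⟨min e₁ e₂, lt_min he₁ he₂, fun K η hη => ?_⟩
  obtain ⟨J₁, hJ₁⟩ := exists_nat_ge (1 / (ε / 2))
  have b1 := bas_large hK₀ (κ := η) hη
  have b2 := bas_large (H₁ (max K K₀) (1 / 4) (by norm_num)) (κ := η / K₁) (by positivity)
  have b3 := bas_large (H₂ (max K K₀) (1 / 4) (by norm_num)) (κ := η / K₁) (by positivity)
  refine Bas.mono J₁ ((b1.and (b2.and b3)).and (Pool.GRW.tmc_bas htm one_pos)) ?_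
  rintro J hJ F A ⟨⟨a1, a2, a3⟩, hA, -⟩ c₁ c₃ g₁ g₃
  have hJ0 : (0 : ℝ) ≤ J := Nat.cast_nonneg J
  have hJ1 : (J₁ : ℝ) ≤ J := by exact_mod_cast hJ
  have f1 : 1 ≤ ε / 2 * J := by
    have : 1 / (ε / 2) ≤ J := hJ₁.trans hJ1
    rw [div_le_iff₀ (by positivity)] at this
    linarith
  by_contra hcon
  rw [not_le, Pb_cond hA, lt_div_iff₀ hA] at hcon
  obtain ⟨D, hD⟩ : ∃ D : F.Ω → Prop, D = fun ω => A ω ∧ ¬ |c₁ ω - c₃ ω| ≤ 2 ^ (-((Δ - ε) * J)) :=
    ⟨_, rfl⟩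
  rw [← hD] at hcon
  have hDA : Sub D A := fun ω hω => by
    rw [hD] at hω
    exact hω.1
  obtain ⟨B, c, hBD, hPB, hc⟩ := a1 D hDA hcon.le
  have hBA : Sub B A := fun ω hω => hDA ω (hBD ω hω)
  have hPBA : η / K₁ * Pe F.p A ≤ Pe F.p B := by
    rw [div_mul_eq_mul_div, div_le_iff₀ hK₁]
    linarith [hcon.le.trans hPB]
  have hB0 : 0 < Pe F.p B := lt_of_lt_of_le (by positivity) hPBA
  have q1 := a2 B hBA hPBA c₁ c (R₁.mono (le_max_left _ _) (min_le_left _ _) (R₁.sub hBA g₁))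
    (R₂.mono (le_max_right _ _) (min_le_left _ _) hc)
  have q2 := a3 B hBA hPBA c c₃ (R₂.mono (le_max_right _ _) (min_le_right _ _) hc)
    (R₃.mono (le_max_left _ _) (min_le_right _ _) (R₃.sub hBA g₃))
  rw [Pb_cond hB0, div_le_iff₀ hB0] at q1 q2
  have hex : ∃ ω, B ω ∧ |c₁ ω - c ω| ≤ 2 ^ (-((Δ - ε / 2) * J)) ∧
      |c ω - c₃ ω| ≤ 2 ^ (-((Δ - ε / 2) * J)) := by
    by_contra hno
    push Not at hno
    have h1 : Pe F.p B ≤ Pe F.p (fun ω => B ω ∧ ¬ |c₁ ω - c ω| ≤ 2 ^ (-((Δ - ε / 2) * J))) +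
        Pe F.p (fun ω => B ω ∧ ¬ |c ω - c₃ ω| ≤ 2 ^ (-((Δ - ε / 2) * J))) := by
      refine Pe_or F.isLaw fun ω hω => ?_
      by_cases h2 : |c₁ ω - c ω| ≤ 2 ^ (-((Δ - ε / 2) * J))
      · exact Or.inr ⟨hω, not_le.2 (hno ω hω h2)⟩
      · exact Or.inl ⟨hω, h2⟩
    linarith
  obtain ⟨ω, hω, k1, k2⟩ := hex
  have hDω := hBD ω hω
  rw [hD] at hDω
  refine hDω.2 ?_
  have b1 := abs_sub_le (c₁ ω) (c ω) (c₃ ω)
  have b2 : (2 : ℝ) * 2 ^ (-((Δ - ε / 2) * J)) ≤ 2 ^ (-((Δ - ε) * J)) := by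
    have e1 : (2 : ℝ) * 2 ^ (-((Δ - ε / 2) * J)) = 2 ^ (1 + -((Δ - ε / 2) * J)) := by
      rw [Real.rpow_add (by norm_num), Real.rpow_one]
    rw [e1]
    refine Real.rpow_le_rpow_of_exponent_le (by norm_num) ?_
    have e2 : -((Δ - ε / 2) * J) = -((Δ - ε) * J) - ε / 2 * J := by ring
    rw [e2]
    linarith
  linarith

/-- A larger number of digits. -/
theorem RL.lt {I : Finset (Fin m)} {ι k : Fin m} {w p p' : ℝ} {S : PCl m} {R : SRel m} {Δ : ℝ}
    (hp : p' ≤ p) (h : SloN S R (RL m I ι k w p') Δ) : SloN S R (RL m I ι k w p) Δ :=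
  h.incl (fun _ _ _ _ _ _ h => h) fun _ _ _ _ _ _ h => RL.le hp h

/-- **The slopes of the charts** at a good window are attained on a part of each event. -/
theorem exp_gdw {S : PCl m} (hS : S.Ne) {C₀ : ℝ} (hC₀ : 0 ≤ C₀) (htm : TmC S C₀)
    {L : Finset (Fin m) → Fin m → ℝ → ℝ → ℝ} (hL : LamW S L) {y u v : Fin m} (hyu : y ≠ u)
    (hact : ActF S y) {t : ℝ} (hG : Gdw L y u v t) :
    ExP S (RL m {y} u v t (L {y, u} v t t)) := by
  intro e he
  refine ⟨1, 25600, by norm_num, Bas.mono 0 (cht_cls hS hC₀ htm hL hyu hact hG he) ?_⟩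
  rintro J - F A ⟨a, b, B, hB, hP, -, -, hb⟩
  obtain ⟨z, hz⟩ := hb.lb
  refine ⟨B, fun ω => b (slam F ⌊t * J⌋₊ ω) 3, hB, hP, _, z, b, cpl y u, fun x => x 3, ?_,
    fun x => cpl_afI hyu x, fun _ _ => rfl⟩
  have e1 : insert u {y} = ({y, u} : Finset (Fin m)) := Finset.pair_comm u y
  rw [e1]
  exact hz

/-- **The slopes of the labels at an earlier window are natural at the window**: place two over one
contact coordinate, if its level increases slower than the level of the place one. -/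
theorem slo_to {S : PCl m} (hS : S.Ne) {C₀ : ℝ} (hC₀ : 0 ≤ C₀) (htm : TmC S C₀)
    {L : Finset (Fin m) → Fin m → ℝ → ℝ → ℝ} (hL : LamW S L) {c : ℕ → Fin m} (h01 : c 0 ≠ c 1)
    (hact : ActF S (c 0)) {sn : ℝ → ℕ → ℝ} {G : Set ℝ} {g : ℝ} {Sl : ℕ → ℝ}
    (hSl : SlpG sn 1 2 G g Sl) (hgG : g ∈ G) (hlt : Sl 2 < Sl 1) {ρ₀ : ℝ} (hρ₀ : 0 < ρ₀)
    (hsn1 : ∀ w ∈ G, g - ρ₀ ≤ w → w ≤ g + ρ₀ → sn w 1 = L {c 0} (c 1) w w)
    (hsn2 : ∀ w ∈ G, g - ρ₀ ≤ w → w ≤ g + ρ₀ → sn w 2 = L {c 0, c 1} (c 2) w w)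
    (hg0 : 0 < g) (hu : g < sn g 1) (hv : g < sn g 2) (hu1 : sn g 1 < 1)
    (hch : ∀ w ∈ G, g - ρ₀ ≤ w → w ≤ g → ∃ u₀ u₁ rd, Chn S c 1 2 w u₀ u₁ (sn w) rd) :
    ∃ δ : ℝ, 0 < δ ∧ ∀ b : ℝ, g - δ < b → b < g →
      SloN S (RL m {c 0} (c 1) (c 2) b (L {c 0, c 1} (c 2) b b))
        (RL m {c 0} (c 1) (c 2) g (L {c 0, c 1} (c 2) g g)) (sn g 2 - sn g 1) := by
  have e1 : (range 1).image c = {c 0} := by simp
  obtain ⟨ρ₁, hρ₁, hρ10, hgd⟩ := gdw_near (r₀ := 1) (r := 2) (i := 1) (y := c 0) (u := c 1)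
    (v := c 2) hL hSl hgG le_rfl le_rfl hρ₀ hsn1 hsn2 hg0 hu hv hu1
  have hs2 := hSl.nn 2 (by norm_num) le_rfl
  obtain ⟨a, ha⟩ : ∃ a, a = Sl 1 := ⟨_, rfl⟩
  obtain ⟨d, hd⟩ : ∃ d, d = Sl 2 := ⟨_, rfl⟩
  rw [← ha, ← hd] at hlt
  rw [← hd] at hs2
  obtain ⟨θ, hθ⟩ : ∃ θ, θ = (a - d) / 16 := ⟨_, rfl⟩
  have hθ0 : 0 < θ := by rw [hθ]; linarith
  obtain ⟨C, hC⟩ : ∃ C, C = d + 8 * θ := ⟨_, rfl⟩
  have haθ : a = d + 16 * θ := by rw [hθ]; ring
  have hC0 : 0 < C := by rw [hC]; linarith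
  -- the ratio
  obtain ⟨q, hq⟩ : ∃ q, q = (C + θ) / (a - θ) := ⟨_, rfl⟩
  have haθ0 : 0 < a - θ := by linarith
  have hq0 : 0 < q := by rw [hq]; exact div_pos (by linarith) haθ0
  have hq1 : q < 1 := by
    rw [hq, div_lt_one haθ0, hC, haθ]
    linarith
  have hqa : (a - θ) * q = C + θ := by rw [hq]; field_simp
  obtain ⟨q₁, hq₁⟩ : ∃ q₁, q₁ = (q + 1) / 2 := ⟨_, rfl⟩
  have q10 : 0 < q₁ := by rw [hq₁]; linarith
  have q11 : q₁ < 1 := by rw [hq₁]; linarith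
  have q1q : q < q₁ := by rw [hq₁]; linarith
  obtain ⟨r₁, hr₁, H1⟩ := hSl.sl 1 le_rfl (by norm_num) θ hθ0
  obtain ⟨r₂, hr₂, H2⟩ := hSl.sl 2 (by norm_num) le_rfl θ hθ0
  obtain ⟨η, hη⟩ : ∃ η, η = (q₁ - q) / 2 := ⟨_, rfl⟩
  have hη0 : 0 < η := by rw [hη]; linarith
  obtain ⟨η', hη'⟩ : ∃ η', η' = min η (θ / (4 * C)) := ⟨_, rfl⟩
  have hη'0 : 0 < η' := by rw [hη']; positivity
  have hη'1 : η' ≤ η := by rw [hη']; exact min_le_left _ _
  have hη'2 : C * η' ≤ θ / 4 := by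
    have h1 : η' ≤ θ / (4 * C) := by rw [hη']; exact min_le_right _ _
    calc C * η' ≤ C * (θ / (4 * C)) := mul_le_mul_of_nonneg_left h1 hC0.le
      _ = θ / 4 := by field_simp
  obtain ⟨r₃, hr₃, H3⟩ := hSl.gap η' hη'0
  obtain ⟨δ, hδ⟩ : ∃ δ, δ = min (min r₁ r₂) (min r₃ ρ₁) / 2 := ⟨_, rfl⟩
  have hδ0 : 0 < δ := by rw [hδ]; positivity
  have hδ' : 2 * δ ≤ r₁ ∧ 2 * δ ≤ r₂ ∧ 2 * δ ≤ r₃ ∧ 2 * δ ≤ ρ₁ := by
    have e2 : 2 * δ = min (min r₁ r₂) (min r₃ ρ₁) := by rw [hδ]; ring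
    rw [e2]
    exact ⟨(min_le_left _ _).trans (min_le_left _ _), (min_le_left _ _).trans (min_le_right _ _),
      (min_le_right _ _).trans (min_le_left _ _), (min_le_right _ _).trans (min_le_right _ _)⟩
  obtain ⟨d1, d2, d3, d4⟩ := hδ'
  -- the numbers at the windows of `G` near `g`
  have lo1 : ∀ w ∈ G, g - δ ≤ w → w < g → sn w 1 ≤ sn g 1 - (a - θ) * (g - w) := by
    intro w hw w1 w2
    have h1 := (abs_le.1 (H1 (g - w) (by linarith) (by linarith) w hw g hgG (by linarith) w2.le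
      (by linarith))).1
    rw [← ha] at h1
    linarith
  have lo2 : ∀ w ∈ G, g - δ ≤ w → w < g → sn g 2 - (d + θ) * (g - w) ≤ sn w 2 := by
    intro w hw w1 w2
    have h1 := (abs_le.1 (H2 (g - w) (by linarith) (by linarith) w hw g hgG (by linarith) w2.le
      (by linarith))).2
    rw [← hd] at h1
    linarith
  have eg1 : sn g 2 = L {c 0, c 1} (c 2) g g := hsn2 g hgG (by linarith) (by linarith)
  -- the number of the place two at all windows near `g`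
  have lo3 : ∀ t : ℝ, g - δ / 2 < t → t < g →
      sn g 2 - (d + 2 * θ) * (g - t) ≤ L {c 0, c 1} (c 2) t t := by
    intro t t1 t2
    obtain ⟨x, hx, x1, x2⟩ := H3 (g - t) (by linarith) (by linarith) t (by linarith) (by linarith)
    have h1 := lo2 x hx (by
      have : η' * (g - t) ≤ 1 * (g - t) := by
        refine mul_le_mul_of_nonneg_right ?_ (by linarith)
        have : η ≤ 1 := by rw [hη]; linarith
        linarith
      linarith) (by linarith)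
    rw [hsn2 x hx (by
      have : η' * (g - t) ≤ 1 * (g - t) := by
        refine mul_le_mul_of_nonneg_right ?_ (by linarith)
        have : η ≤ 1 := by rw [hη]; linarith
        linarith
      linarith) (by linarith)] at h1
    have h2 : L {c 0, c 1} (c 2) x x ≤ L {c 0, c 1} (c 2) t t :=
      hL.mono _ _ _ _ _ _ _ (Finset.Subset.refl _) x2 x2
    have h3 : (d + θ) * (g - x) ≤ (d + θ) * (g - t) + θ / 4 * (g - t) := by
      have h4 : g - x ≤ (g - t) + η' * (g - t) := by linarith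
      have h5 : (d + θ) * (g - x) ≤ (d + θ) * ((g - t) + η' * (g - t)) :=
        mul_le_mul_of_nonneg_left h4 (by linarith)
      have h6 : (d + θ) * (η' * (g - t)) ≤ C * (η' * (g - t)) :=
        mul_le_mul_of_nonneg_right (by rw [hC]; linarith) (mul_nonneg hη'0.le (by linarith))
      have h7 : C * η' * (g - t) ≤ θ / 4 * (g - t) :=
        mul_le_mul_of_nonneg_right hη'2 (by linarith)
      have h8 : C * η' * (g - t) = C * (η' * (g - t)) := by ring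
      linarith
    have h9 : 0 ≤ θ * (g - t) := mul_nonneg hθ0.le (by linarith)
    linarith
  -- continuity windows
  have hden : ∀ a b : ℝ, a < b → ∃ t : ℝ, a < t ∧ t < b ∧
      ContinuousAt (fun W => L {c 0} (c 1) W W) t ∧
      ContinuousAt (fun W => L {c 0, c 1} (c 2) W W) t := by
    intro a b hab
    have hcnt : ({W : ℝ | ¬ ContinuousAt (fun W => L {c 0} (c 1) W W) W} ∪
        {W : ℝ | ¬ ContinuousAt (fun W => L {c 0, c 1} (c 2) W W) W}).Countable :=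
      (Pool.OWN17.cnt_L hL {c 0} (c 1)).2.union (Pool.OWN17.cnt_L hL {c 0, c 1} (c 2)).2
    obtain ⟨t, ht, hti⟩ := (hcnt.dense_compl ℝ).exists_mem_open isOpen_Ioo
      (Set.nonempty_Ioo.mpr hab)
    simp only [Set.mem_compl_iff, Set.mem_union, Set.mem_setOf_eq, not_or, not_not] at ht
    exact ⟨t, hti.1, hti.2, ht.1, ht.2⟩
  refine ⟨δ / 2, by positivity, fun b b1 b2 => ?_⟩
  rw [← eg1]
  obtain ⟨pb, hpb⟩ : ∃ pb, pb = L {c 0, c 1} (c 2) b b := ⟨_, rfl⟩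
  rw [← hpb]
  have hpb1 : sn g 2 - C * (g - b) ≤ pb := by
    have h1 := lo3 b b1 b2
    rw [← hpb] at h1
    have h2 : (d + 2 * θ) * (g - b) ≤ C * (g - b) :=
      mul_le_mul_of_nonneg_right (by rw [hC]; linarith) (by linarith)
    linarith
  have hq2 : 1 / 2 ≤ q := by
    rw [hq, div_le_div_iff₀ (by norm_num) haθ0, hC, haθ]
    linarith
  -- the steps
  have step : ∀ h : ℝ, 0 < h → h < δ / 2 → ∃ h' : ℝ, 0 < h' ∧ h' ≤ q₁ * h ∧
      ∃ t : ℝ, t ≤ g - h' ∧ sn g 2 - C * h' ≤ L {c 0, c 1} (c 2) t t ∧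
        Gdw L (c 0) (c 1) (c 2) t ∧ ∀ t₀ p₀ : ℝ, t₀ ≤ g - h → sn g 2 - C * h ≤ p₀ →
          SloN S (RL m {c 0} (c 1) (c 2) t₀ p₀)
            (RL m {c 0} (c 1) (c 2) t (L {c 0, c 1} (c 2) t t)) (sn g 2 - sn g 1) := by
    intro h hh hhδ
    obtain ⟨x, hx, x1, x2⟩ := H3 h hh (by linarith) (g - q * h)
      (by
        have : q * h ≤ 1 * h := mul_le_mul_of_nonneg_right hq1.le hh.le
        linarith) (by
        have : 0 ≤ q * h := by positivity
        linarith)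
    have hηh : η' * h ≤ η * h := mul_le_mul_of_nonneg_right hη'1 hh.le
    have eη : η * h = q₁ * h - q * h - η * h := by rw [hη]; ring
    have hqh : 0 < q * h := by positivity
    have hq2h : 1 / 2 * h ≤ q * h := mul_le_mul_of_nonneg_right hq2 hh.le
    have hq1h : q₁ * h < h := by
      have := mul_lt_mul_of_pos_right q11 hh
      linarith
    have hxg : x < g := by linarith
    obtain ⟨t, t1, t2, t3, t4⟩ := hden (x - η' * h) x (by
      have : 0 < η' * h := by positivity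
      linarith)
    have hηh0 : 0 < η * h := by positivity
    have hη'h0 : 0 < η' * h := by positivity
    have htw : g - h < t := by linarith
    have hp : sn g 2 - C * (g - x) ≤ L {c 0, c 1} (c 2) t t := by
      have h1 := lo3 t (by linarith) (by linarith)
      have h2 : (d + 2 * θ) * (g - t) ≤ (d + 2 * θ) * ((g - x) + η' * h) :=
        mul_le_mul_of_nonneg_left (by linarith) (by linarith)
      have h3 : (d + 2 * θ) * (η' * h) ≤ C * (η' * h) :=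
        mul_le_mul_of_nonneg_right (by rw [hC]; linarith) hη'h0.le
      have h4 : C * η' * h ≤ θ / 4 * h := mul_le_mul_of_nonneg_right hη'2 hh.le
      have h5 : C * η' * h = C * (η' * h) := by ring
      have h6 : θ / 4 * h ≤ θ * (g - x) := by
        have h7 : θ * (1 / 2 * h) ≤ θ * (g - x) :=
          mul_le_mul_of_nonneg_left (by linarith) hθ0.le
        have h8 : 0 ≤ θ * h := by positivity
        linarith
      have h7 : (d + 3 * θ) * (g - x) ≤ C * (g - x) :=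
        mul_le_mul_of_nonneg_right (by rw [hC]; linarith) (by linarith)
      linarith
    refine ⟨g - x, by linarith, by linarith, t, by linarith, hp,
      hgd t (by linarith) (by linarith) t3 t4, fun t₀ p₀ k1 k2 => ?_⟩
    obtain ⟨u₀, u₁, rd, hc⟩ := hch x hx (by linarith) hxg.le
    have hrel : SloN S (RL m ((range 1).image c) (c 1) (c 2) t₀ p₀)
        (RL m ((range 1).image c) (c 1) (c 2) t (L {c 0, c 1} (c 2) t t))
        (min p₀ (L {c 0, c 1} (c 2) t t) - sn x 1) :=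
      slo_af htm hc le_rfl (c 2) (by linarith) (by linarith)
    rw [e1] at hrel
    refine hrel.le htm ?_
    have h1 := lo1 x hx (by linarith) hxg
    have h2 : (a - θ) * (q * h) ≤ (a - θ) * (g - x) :=
      mul_le_mul_of_nonneg_left (by linarith) haθ0.le
    have h3 : (a - θ) * (q * h) = (C + θ) * h := by rw [← mul_assoc, hqa]
    have h4 : C * (g - x) ≤ C * h := mul_le_mul_of_nonneg_left (by linarith) hC0.le
    have h5 : 0 ≤ θ * h := by positivity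
    have h6 : sn g 2 - C * h ≤ min p₀ (L {c 0, c 1} (c 2) t t) := le_min k2 (by linarith)
    linarith
  have key : ∀ k : ℕ, ∃ h : ℝ, 0 < h ∧ h ≤ q₁ ^ k * (g - b) ∧ ∃ t : ℝ, t ≤ g - h ∧
      sn g 2 - C * h ≤ L {c 0, c 1} (c 2) t t ∧ Gdw L (c 0) (c 1) (c 2) t ∧
      SloN S (RL m {c 0} (c 1) (c 2) b pb)
        (RL m {c 0} (c 1) (c 2) t (L {c 0, c 1} (c 2) t t)) (sn g 2 - sn g 1) := by
    have hq1b : q₁ * (g - b) ≤ 1 * (g - b) := mul_le_mul_of_nonneg_right q11.le (by linarith)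
    intro k
    induction k with
    | zero =>
      obtain ⟨h', h1, h2, t, h3, h4, h5, h6⟩ := step (g - b) (by linarith) (by linarith)
      exact ⟨h', h1, by
        rw [pow_zero]
        linarith, t, h3, h4, h5, h6 b pb (by linarith) hpb1⟩
    | succ k ih =>
      obtain ⟨h, h0, h1, t, h2, h3, h4, h5⟩ := ih
      have hk : q₁ ^ k * (g - b) ≤ 1 * (g - b) :=
        mul_le_mul_of_nonneg_right (pow_le_one₀ q10.le q11.le) (by linarith)
      obtain ⟨h', k1, k2, t', k3, k4, k5, k6⟩ := step h h0 (by linarith)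
      refine ⟨h', k1, ?_, t', k3, k4, k5, slo_transP htm h5 (k6 t _ h2 h3)
        (exp_gdw hS hC₀ htm hL h01 hact h4)⟩
      refine k2.trans ((mul_le_mul_of_nonneg_left h1 q10.le).trans (le_of_eq ?_))
      rw [pow_succ]
      ring
  intro ε hε
  obtain ⟨k, hk⟩ : ∃ k : ℕ, q₁ ^ k * (C * (g - b)) ≤ ε / 2 := by
    have hCb : 0 < C * (g - b) := mul_pos hC0 (by linarith)
    obtain ⟨k, hk⟩ := exists_pow_lt_of_lt_one (show 0 < ε / 2 / (C * (g - b)) by positivity) q11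
    refine ⟨k, ?_⟩
    rw [lt_div_iff₀ hCb] at hk
    exact hk.le
  obtain ⟨h, h0, h1, t, h2, h3, h4, h5⟩ := key k
  obtain ⟨u₀, u₁, rd, hc⟩ := hch g hgG (by linarith) le_rfl
  have hrel : SloN S (RL m ((range 1).image c) (c 1) (c 2) t (L {c 0, c 1} (c 2) t t))
      (RL m ((range 1).image c) (c 1) (c 2) g (sn g 2))
      (min (L {c 0, c 1} (c 2) t t) (sn g 2) - sn g 1) :=
    slo_af htm hc le_rfl (c 2) (by linarith) le_rfl
  rw [e1] at hrel
  have hCh : C * h ≤ ε / 2 := by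
    have h6 : C * h ≤ C * (q₁ ^ k * (g - b)) := mul_le_mul_of_nonneg_left h1 hC0.le
    have h7 : C * (q₁ ^ k * (g - b)) = q₁ ^ k * (C * (g - b)) := by ring
    linarith
  have hCh0 : 0 ≤ C * h := by positivity
  have f1 : SloN S (RL m {c 0} (c 1) (c 2) b pb) (RL m {c 0} (c 1) (c 2) g (sn g 2))
      (sn g 2 - sn g 1 - ε / 2) := by
    refine slo_transP htm (h5.le htm (by linarith)) (hrel.le htm ?_)
      (exp_gdw hS hC₀ htm hL h01 hact h4)
    have : sn g 2 - C * h ≤ min (L {c 0, c 1} (c 2) t t) (sn g 2) := le_min h3 (by linarith)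
    linarith
  obtain ⟨e₁, he₁, f2⟩ := f1 (ε / 2) (half_pos hε)
  refine ⟨e₁, he₁, fun K η hη => Bas.mono 0 (f2 K η hη) fun J _ F A H c₁ c₂ g₁ g₂ => ?_⟩
  have f3 := H c₁ c₂ g₁ g₂
  have e2 : sn g 2 - sn g 1 - ε / 2 - ε / 2 = sn g 2 - sn g 1 - ε := by ring
  rw [e2] at f3
  exact f3

end Pool.AT66
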